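import Pool.Agent.H13R3.PI.Final

/-!
# Goldbach representations within primorial intervals, for almost all members of thin families

Let `I_n = {#(n-1)+1, ..., #(n)+1}`.  For large `n`, all but at most `x / (log #(n+1)) ^ U` members
`m` of every family of `x` even integers of `I_{n+1}` whose additive energy is nearly minimal are
sums of a prime `p` of `I_n` and a prime of `I_n` or `I_{n+1}`, with at least
`#(n) / (10 (log #(n+1))²)` choices of `p`.  In particular all but at most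
`#(n+1) / (log #(n+1)) ^ U` of the even integers of `I_{n+1}` have such a representation.
-/

set_option autoImplicit false

namespace Pool.Agent.Results.MP_484fb8_nt.PrimorialFamilies

open Finset

/-- the primorial `#(n)`: the product of the first `n` primes -/
noncomputable def prim (n : ℕ) : ℕ := ∏ i ∈ range n, Nat.nth Nat.Prime i

/-- the `n`-primorial interval `{#(n-1)+1, ..., #(n)+1}`, `n ≥ 1` -/
noncomputable def I (n : ℕ) : Finset ℕ := Icc (prim (n - 1) + 1) (prim n + 1)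

open Classical in
/-- the number of primes `p ∈ I_n` with `p ≤ m` such that `m - p` is a prime of `I_n ∪ I_{n+1}` -/
noncomputable def reps (n m : ℕ) : ℕ :=
  ((I n).filter (fun p => p.Prime ∧ p ≤ m ∧ (m - p).Prime ∧ (m - p ∈ I n ∨ m - p ∈ I (n + 1)))).card

/-- the additive energy of order `h` of the family `s 1, ..., s x`: the number of solutions of
`s (v 1) + ... + s (v h) = s (w 1) + ... + s (w h)` with all `v i`, `w i` in `{1, ..., x}` -/
def energy (h x : ℕ) (s : ℕ → ℕ) : ℕ :=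
  (((Fintype.piFinset fun _ : Fin h => Icc 1 x) ×ˢ (Fintype.piFinset fun _ : Fin h => Icc 1 x)).filter
    (fun q => ∑ i, s (q.1 i) = ∑ i, s (q.2 i))).card

open Classical in
/-- the number of `m ∈ {1, ..., x}` for which `s m` has fewer than `#(n) / (10 (log #(n+1))²)`
representations -/
noncomputable def exceptions (n x : ℕ) (s : ℕ → ℕ) : ℕ :=
  ((Icc 1 x).filter (fun m =>
    ¬ (prim n : ℝ) / (10 * Real.log (prim (n + 1)) ^ 2) ≤ reps n (s m))).card

lemma energy_eq (h x : ℕ) (s : ℕ → ℕ) :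
    Pool.Agent.H373R2.T7.energy h x (fun m => (s m : ℤ)) = energy h x s := by
  unfold Pool.Agent.H373R2.T7.energy energy
  congr 1
  apply filter_congr
  intro q _
  simp only
  rw [← Nat.cast_sum, ← Nat.cast_sum]
  exact Nat.cast_inj

lemma prim_eq' (n : ℕ) : Pool.Agent.H13R3.PI.prim n = prim n := rfl

lemma reps_ge (k m : ℕ) (hm1 : prim (k + 1) + 1 ≤ m) (hm2 : m ≤ prim (k + 2) + 1) :
    ((Icc (prim k + 1) (prim (k + 1) / 2)).filter (fun p => p.Prime ∧ (m - p).Prime)).card ≤
      reps (k + 1) m := by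
  classical
  unfold reps
  apply card_le_card
  intro p hp
  rw [mem_filter, mem_Icc] at hp
  obtain ⟨⟨h1, h2⟩, h3, h4⟩ := hp
  have h5 : prim (k + 1) = prim k * Nat.nth Nat.Prime k := Pool.Agent.H13R3.PI.prim_succ k
  have h6 : 2 * prim k ≤ prim (k + 1) := by
    rw [h5, mul_comm]
    exact Nat.mul_le_mul_left _ (Nat.prime_nth_prime k).two_le
  have h7 : prim (k + 1) ≤ prim (k + 2) := by
    have h8 : prim (k + 2) = prim (k + 1) * Nat.nth Nat.Prime (k + 1) :=
      Pool.Agent.H13R3.PI.prim_succ (k + 1)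
    rw [h8]
    exact Nat.le_mul_of_pos_right _ (Nat.prime_nth_prime (k + 1)).pos
  rw [mem_filter]
  unfold I
  rw [mem_Icc, mem_Icc, mem_Icc]
  simp only [Nat.add_sub_cancel]
  refine ⟨⟨h1, by omega⟩, h3, by omega, h4, ?_⟩
  have h10 : prim (k + 1 + 1) = prim (k + 2) := rfl
  by_cases h9 : m - p ≤ prim (k + 1) + 1
  · left
    exact ⟨by omega, h9⟩
  · right
    exact ⟨by omega, by omega⟩

theorem part1 (h C U : ℕ) : ∃ n₀ : ℕ, ∀ n : ℕ, n₀ ≤ n → ∀ (x : ℕ) (s : ℕ → ℕ),
    (∀ m ∈ Icc 1 x, Even (s m) ∧ s m ∈ I (n + 1)) →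
    (energy h x s : ℝ) * prim (n + 1) ≤ Real.log (prim (n + 1)) ^ C * (x : ℝ) ^ (2 * h) →
    (exceptions n x s : ℝ) ≤ x / Real.log (prim (n + 1)) ^ U := by
  classical
  obtain ⟨n₀, h0⟩ := Pool.Agent.H13R3.PI.main h C U
  refine ⟨n₀ + 1, fun n hn x s hs hE => ?_⟩
  obtain ⟨k, rfl⟩ : ∃ k, n = k + 1 := ⟨n - 1, by omega⟩
  have hs' : ∀ m ∈ Icc 1 x, Even (s m) ∧ prim (k + 1) + 1 ≤ s m ∧ s m ≤ prim (k + 2) + 1 := by
    intro m hm
    obtain ⟨g1, g2⟩ := hs m hm
    unfold I at g2
    rw [mem_Icc] at g2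
    simp only [Nat.add_sub_cancel] at g2
    exact ⟨g1, g2⟩
  obtain ⟨S, hS1, hS2⟩ := h0 k (by omega) x s hs' (by rw [energy_eq]; exact hE)
  refine le_trans ?_ hS1
  have hsub : (Icc 1 x).filter (fun m =>
      ¬ (prim (k + 1) : ℝ) / (10 * Real.log (prim (k + 1 + 1)) ^ 2) ≤ reps (k + 1) (s m)) ⊆ S := by
    intro m hm
    rw [mem_filter] at hm
    by_contra hmS
    apply hm.2
    refine (hS2 m hm.1 hmS).trans ?_
    have := reps_ge k (s m) (hs' m hm.1).2.1 (hs' m hm.1).2.2
    exact_mod_cast this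
  exact_mod_cast card_le_card hsub

theorem part2 (U : ℕ) : ∃ n₀ : ℕ, ∀ n : ℕ, n₀ ≤ n →
    (((I (n + 1)).filter (fun m => Even m ∧ reps n m = 0)).card : ℝ) ≤
      prim (n + 1) / Real.log (prim (n + 1)) ^ U := by
  classical
  obtain ⟨n₀, h0⟩ := part1 1 1 U
  refine ⟨n₀ + 40, fun n hn => ?_⟩
  obtain ⟨k, rfl⟩ : ∃ k, n = k + 1 := ⟨n - 1, by omega⟩
  have ev1 : Even (prim (k + 1)) := Pool.Agent.H13R3.PI.prim_even k
  have ev2 : Even (prim (k + 2)) := Pool.Agent.H13R3.PI.prim_even (k + 1)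
  have h8 : prim (k + 2) = prim (k + 1) * Nat.nth Nat.Prime (k + 1) :=
    Pool.Agent.H13R3.PI.prim_succ (k + 1)
  have hP : k + 1 ≤ Nat.nth Nat.Prime (k + 1) :=
    (Nat.nth_strictMono Nat.infinite_setOfPred_prime).le_apply
  have hpos : 0 < prim (k + 1) := Pool.Agent.H13R3.PI.prim_pos _
  have hbig : 39 * prim (k + 1) ≤ prim (k + 2) := by
    rw [h8, mul_comm]
    exact Nat.mul_le_mul_left _ (by omega)
  set q := prim (k + 2) with hq
  set a := prim (k + 1) with ha
  obtain ⟨b, hb⟩ := ev1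
  obtain ⟨c, hc⟩ := ev2
  set x : ℕ := c - b with hx
  set s : ℕ → ℕ := fun i => a + 2 * i with hs
  have hx3 : q ≤ 3 * x := by omega
  have hq64 : 4 ≤ q := by omega
  have hlog : 3 ≤ Real.log q := by
    have h2 := Pool.Agent.H13R3.PI.prim_two_pow (k + 2)
    have h3 : (2 : ℕ) ^ 41 ≤ q := le_trans (Nat.pow_le_pow_right (by norm_num) (by omega)) h2
    have h4 : (2 : ℝ) ^ 41 ≤ q := by exact_mod_cast h3
    have h5 := Real.log_le_log (by positivity) h4
    rw [Real.log_pow] at h5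
    have := Real.log_two_gt_d9
    push_cast at h5
    linarith
  have hlogpos : 0 < Real.log (q : ℝ) := by linarith
  have hmem : ∀ m ∈ Icc 1 x, Even (s m) ∧ s m ∈ I (k + 1 + 1) := by
    intro m hm
    rw [mem_Icc] at hm
    unfold I
    rw [mem_Icc]
    simp only [Nat.add_sub_cancel, hs]
    refine ⟨⟨b + m, by omega⟩, by omega, ?_⟩
    change a + 2 * m ≤ q + 1
    omega
  have hen : energy 1 x s = x := by
    unfold energy
    have h1 : ((Fintype.piFinset fun _ : Fin 1 => Icc 1 x) ×ˢ (Fintype.piFinset fun _ : Fin 1 => Icc 1 x)).filter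
        (fun q : (Fin 1 → ℕ) × (Fin 1 → ℕ) => ∑ i, s (q.1 i) = ∑ i, s (q.2 i)) =
        (Icc 1 x).image (fun i => ((fun _ : Fin 1 => i), (fun _ : Fin 1 => i))) := by
      ext ⟨v, w⟩
      rw [mem_filter, mem_product, mem_image]
      simp only [Fintype.mem_piFinset, Fin.forall_fin_one, Fin.sum_univ_one, hs]
      constructor
      · rintro ⟨⟨h1, -⟩, h2⟩
        refine ⟨v 0, h1, ?_⟩
        rw [Prod.mk.injEq]
        constructor
        · funext i
          rw [Fin.fin_one_eq_zero i]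
        · funext i
          rw [Fin.fin_one_eq_zero i]
          omega
      · rintro ⟨i, hi, hvw⟩
        rw [Prod.mk.injEq] at hvw
        obtain ⟨rfl, rfl⟩ := hvw
        exact ⟨⟨hi, hi⟩, rfl⟩
    rw [h1, card_image_of_injective]
    · rw [Nat.card_Icc]
      omega
    · intro i j hij
      rw [Prod.mk.injEq] at hij
      exact congrFun hij.1 0
  have hx0 : (0 : ℝ) ≤ x := Nat.cast_nonneg _
  have hmain := h0 (k + 1) (by omega) x s hmem (by
    rw [hen]
    change (x : ℝ) * (q : ℝ) ≤ Real.log (q : ℝ) ^ 1 * (x : ℝ) ^ (2 * 1)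
    have h3 : (q : ℝ) ≤ 3 * x := by exact_mod_cast hx3
    rw [pow_one, mul_one]
    calc (x : ℝ) * q ≤ x * (3 * x) := mul_le_mul_of_nonneg_left h3 hx0
      _ = 3 * (x : ℝ) ^ 2 := by ring
      _ ≤ Real.log q * (x : ℝ) ^ 2 := mul_le_mul_of_nonneg_right hlog (by positivity))
  have hxq : (x : ℝ) ≤ q := by exact_mod_cast (by omega : x ≤ q)
  change (exceptions (k + 1) x s : ℝ) ≤ x / Real.log (q : ℝ) ^ U at hmain
  change (((I (k + 1 + 1)).filter (fun m => Even m ∧ reps (k + 1) m = 0)).card : ℝ) ≤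
      (q : ℝ) / Real.log (q : ℝ) ^ U
  refine le_trans ?_ (hmain.trans (div_le_div_of_nonneg_right hxq (by positivity)))
  have hcard : ((I (k + 1 + 1)).filter (fun m => Even m ∧ reps (k + 1) m = 0)).card ≤
      exceptions (k + 1) x s := by
    unfold exceptions
    apply card_le_card_of_injOn (fun m => (m - a) / 2)
    · intro m hm
      have hm := mem_coe.1 hm
      rw [mem_filter] at hm
      obtain ⟨hm1, ⟨d, hd⟩, hm3⟩ := hm
      unfold I at hm1
      rw [mem_Icc] at hm1
      simp only [Nat.add_sub_cancel] at hm1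
      have hm2 : a + 1 ≤ m ∧ m ≤ q + 1 := hm1
      rw [mem_coe, mem_filter, mem_Icc]
      have hsm : s ((m - a) / 2) = m := by
        simp only [hs]
        omega
      refine ⟨⟨?_, ?_⟩, ?_⟩
      · change 1 ≤ (m - a) / 2
        omega
      · change (m - a) / 2 ≤ x
        omega
      rw [hsm, hm3]
      push Not
      rw [Nat.cast_zero]
      have : (0 : ℝ) < a := by exact_mod_cast hpos
      change 0 < (a : ℝ) / (10 * Real.log (q : ℝ) ^ 2)
      positivity
    · intro m hm m' hm' hmm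
      have hm := mem_coe.1 hm
      have hm' := mem_coe.1 hm'
      rw [mem_filter] at hm hm'
      obtain ⟨hm1, ⟨d, hd⟩, -⟩ := hm
      obtain ⟨hm1', ⟨d', hd'⟩, -⟩ := hm'
      unfold I at hm1 hm1'
      rw [mem_Icc] at hm1 hm1'
      simp only [Nat.add_sub_cancel] at hm1 hm1'
      have g1 : a + 1 ≤ m := hm1.1
      have g2 : a + 1 ≤ m' := hm1'.1
      simp only at hmm
      omega
  exact_mod_cast hcard

/-- For all `h`, `C`, `U` and all large `n`: for every family of `x` even integers of `I_{n+1}` whose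
additive energy of order `h` is at most `(log #(n+1)) ^ C * x ^ (2h) / #(n+1)`, all but at most
`x / (log #(n+1)) ^ U` members have at least `#(n) / (10 (log #(n+1))²)` representations.  (For the
family of all the even integers of `I_{n+1}` the hypothesis holds with `h = C = 1`, see `part2`.) -/
theorem result (h C U : ℕ) : ∃ n₀ : ℕ, ∀ n : ℕ, n₀ ≤ n → ∀ (x : ℕ) (s : ℕ → ℕ),
    (∀ m ∈ Icc 1 x, Even (s m) ∧ s m ∈ I (n + 1)) →
    (energy h x s : ℝ) * prim (n + 1) ≤ Real.log (prim (n + 1)) ^ C * (x : ℝ) ^ (2 * h) →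
    (exceptions n x s : ℝ) ≤ x / Real.log (prim (n + 1)) ^ U :=
  part1 h C U

end Pool.Agent.Results.MP_484fb8_nt.PrimorialFamilies
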